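import Mathlib
import Pool.Agent.N843.CK.Fo
import Pool.Agent.N843.CK.Fin

/-!
# The Bloch–Kato order formula in all weights for the twists of `X_0(49)` over `ℚ(√-7)`: exact natural
# density

`K = ℚ(√-7)` with ring of integers `ℤ[ω]`, `ω² = ω - 2`. For `d` in `ℤ[ω]` let `E_d` be the elliptic
curve over `K` which is the quadratic twist by `d` of `X_0(49)`. It has complex multiplication by
`ℤ[ω]`; `ψ_d` is its Hecke character. The group `Gal(ℚ̄/K)` acts on the `2`-adic Tate module of `E_d`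
by two characters `κ`, `κ'`. For `k > 0` the motive `h^{2k-1}(E_d^{2k-1})(k)` over `K` has the direct
summand `M_k` with the `2`-adic realization `V_k ⊕ V_{1-k}`, `V_j = ℚ_2(κ^j κ'^(1-j))`, which is
polarized. The `L`-function of `V_j` is `L_j(s)`, the Euler product of the
`(1 - ψ_d(P)^j ψ̄_d(P)^(1-j) N(P)^(-s))⁻¹`; the centre is `s = 1`.

The family consists of **all** the squarefree `D` in `ℤ[ω]` with `D ≡ 1 mod 8` and `√-7 ∤ D`, without a
condition on the prime factors (the curves `E_D` are in general not defined over `ℚ`). Let `D` be good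
if `E_D(K)` is finite and `Ш(E_D/K)` has no element of order two, a condition on the weight `2` only.
* If `D` is good, then the order formula of Bloch and Kato holds at the prime `2` over `K` in **all**
  weights `2k`: for the motives `M_k` of `E_D` for all odd `k > 0`, and for the motives `M_k` of the
  other twist `E_{-D}` for all even `k > 0`. All the central values `L_k(1)`, `L_{1-k}(1)` are not
  zero, `H¹_f(K, V_k) = H¹_f(K, V_{1-k}) = 0`, `H⁰(K, V_k) = H⁰(K, V_{1-k}) = 0`. More generally this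
  holds over `L = K(√d_1, …, √d_n)` for the curves `E_M` and `k` odd if all the products
  `M ∏_{i ∈ T} d_i` are good up to squares, and for `E_M` and `k` even if all the `-M ∏_{i ∈ T} d_i`
  are good up to squares.
* The condition on `D` is equivalent to: there is no factorisation `D = d d'` in `ℤ[ω]` with
  `d ≡ 1 mod ω²`, `d ≠ 1`, such that `d` is a square modulo every prime dividing `d'` and `-√-7 d'`
  is a square modulo every prime dividing `d`.
* The natural density of the good `D` among all the `D` of the family, ordered by the norm, is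
  **exactly** `c2 = ∏_{i ≥ 1} (1 - 2^(-i)) = 0.288…`, and they are a positive proportion of all the
  elements of `ℤ[ω]`.
-/

set_option autoImplicit false

namespace Pool.Agent.Results.MP_ec4e4b_nt.AllWeightsOverK

open Pool.Agent.Results.MP_787500_nt.AllWeightsMultiquadraticX49 (QBar OK emb ED Gal Sub Chr
  TateModule chi GalL K gen Iso SelmerZero)
open WeierstrassCurve IsDedekindDomain Filter
open scoped Classical

/-! ### The curves -/

/-- `K` is a number field. -/
instance (w : QBar) : NumberField (K w) where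
  to_charZero := inferInstance
  to_finiteDimensional := IntermediateField.adjoin.finiteDimensional
    (Algebra.IsIntegral.isIntegral w)

/-- The curve `E_d : y² + x y = x³ - ((3 d + 1) / 4) x² - 2 d² x - d³` over the field `F`, the
quadratic twist by `d` of `X_0(49) : y² + x y = x³ - x² - 2 x - 1`. -/
def twist {F : Type} [Field F] (d : F) : WeierstrassCurve F :=
  ⟨1, -((3 * d + 1) / 4), 0, -2 * d ^ 2, -d ^ 3⟩

/-- Another equation of `E_d`, over a ring: `y² = x³ - 3 d x² - 32 d² x - 64 d³`. -/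
def model {R : Type} [CommRing R] (d : R) : WeierstrassCurve R :=
  ⟨0, -3 * d, 0, -32 * d ^ 2, -64 * d ^ 3⟩

/-- `E(F)` is finite and `Ш(E/F)` has no element of order two. -/
def RankZeroShaTwo {F : Type} [Field F] [NumberField F] (E : WeierstrassCurve F) : Prop :=
  Finite E.toAffine.Point ∧ ∀ x : Pool.Agent.TH841.NF.D.Sha E, 2 • x = 0 → x = 0

/-- The element `√-7 = 2 ω - 1`. -/
def sqrtNegSeven : OK := ⟨-1, 2⟩

/-- The element `-√-7 d` of `ℤ[ω]`. -/
def tw (d : OK) : OK := -(sqrtNegSeven * d)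

/-- The norm of `a + b ω`. -/
def norm (x : OK) : ℤ := x.re ^ 2 + x.re * x.im + 2 * x.im ^ 2

/-- The family: `D ∈ ℤ[ω]` is squarefree, `D ≡ 1 mod 8`, and `√-7` does not divide `D`. -/
structure Adm (D : OK) : Prop where
  squarefree : Squarefree D
  mod_eight : (8 : OK) ∣ D - 1
  seven : ¬ sqrtNegSeven ∣ D

/-- `D` is in the family, `E_D(K)` is finite and `Ш(E_D/K)` has no element of order two. -/
structure IsGood (w : QBar) (D : OK) : Prop where
  adm : Adm D
  rank : RankZeroShaTwo (twist (emb (gen w) D))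

/-! ### The Hecke characters and the central values -/

/-- The weights `2k` for the twists by `e D`, `e = 1` or `e = -1`: `k > 0` is odd if `e = 1` and even
if `e = -1`. -/
def Weight (e k : ℤ) : Prop := 0 < k ∧ ((e = 1 ∧ Odd k) ∨ (e = -1 ∧ Even k))

/-- The quadratic residue symbol `(x / D)` of `ℤ[ω]` for odd squarefree `D`: zero if a prime ideal
contains `x` and `D`, and otherwise `-1` to the number of the prime ideals `P` which contain `D` and
modulo which `x` is not a square. -/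
noncomputable def symbol (x D : OK) : ℤ :=
  if ∃ P : Ideal OK, P.IsPrime ∧ D ∈ P ∧ x ∈ P then 0
  else (-1) ^ {P : Ideal OK | P.IsPrime ∧ D ∈ P ∧ ∀ y : OK, y ^ 2 - x ∉ P}.ncard

/-- The value at the ideal `(x)` of the quadratic character of `K(√(e D))`, `D ≡ 1 mod 8`: the symbol
`(x / D)`, multiplied by the nontrivial character modulo `4` of the norm of `x` if `e = -1`. -/
noncomputable def quad (e : ℤ) (D x : OK) : ℤ :=
  (if e = -1 then ZMod.χ₄ ((norm x : ℤ) : ZMod 4) else 1) * symbol x D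

/-- `ψ` is the Hecke character of `K` with `ψ((x)) = (x / √-7) quad(x) x` for `x` in `ℤ[ω]`; as
`ω = 4` modulo `√-7`, the first symbol is the Legendre symbol of `a + 4 b` modulo `7`, for
`x = a + b ω`. The values are in `ℂ` by the embedding of `K` which maps `ω` to `z`. -/
structure IsHecke (e : ℤ) (D : OK) (z : ℂ) (ψ : Ideal OK → ℂ) : Prop where
  mul : ∀ I J : Ideal OK, ψ (I * J) = ψ I * ψ J
  val : ∀ x : OK, ψ (Ideal.span {x}) = (jacobiSym (x.re + 4 * x.im) 7 : ℂ) *
    (quad e D x : ℂ) * emb z x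

/-- `ψ` is the Hecke character of `E_d`: for all primes `P` of `K` that do not divide `14 d` the
number of the affine points of the reduction of `E_d` modulo `P` is `N(P) - ψ(P) - ψ̄(P)`. -/
def IsHeckeOf (d : OK) (ψ : Ideal OK → ℂ) : Prop :=
  ∀ P : HeightOneSpectrum OK, 14 * d ∉ P.asIdeal →
    ((Nat.card {x : (OK ⧸ P.asIdeal) × (OK ⧸ P.asIdeal) //
      (model (Ideal.Quotient.mk P.asIdeal d)).toAffine.Equation x.1 x.2} : ℕ) : ℂ) =
      (Nat.card (OK ⧸ P.asIdeal) : ℂ) - (ψ P.asIdeal + (starRingEnd ℂ) (ψ P.asIdeal))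

/-- The Euler product `L_j(s)` of the `(1 - ψ(P) ^ j ψ̄(P) ^ (1 - j) N(P) ^ (-s))⁻¹` converges for
`Re s > 3/2`, continues to an entire function and is not zero at `s = 1`. -/
def CentralNonzero (ψ : Ideal OK → ℂ) (j : ℤ) : Prop :=
  ∃ L : ℂ → ℂ, Differentiable ℂ L ∧
    (∀ s : ℂ, 3 / 2 < s.re → HasProd (fun P : HeightOneSpectrum OK =>
      (1 - ψ P.asIdeal ^ j * (starRingEnd ℂ) (ψ P.asIdeal) ^ (1 - j) *
        (Nat.card (OK ⧸ P.asIdeal) : ℂ) ^ (-s))⁻¹) (L s)) ∧ L 1 ≠ 0

/-- For the two complex embeddings of `K` the curve `E_{e D}` has a Hecke character `ψ`, and `L_k(1)`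
and `L_{1-k}(1)` are not zero for all the `k` in `Weight e`. -/
def CentralValues (e : ℤ) (D : OK) : Prop := ∀ z : ℂ, z ^ 2 = z - 2 → ∃ ψ : Ideal OK → ℂ,
  IsHecke e D z ψ ∧ IsHeckeOf ((e : OK) * D) ψ ∧ ∀ k : ℤ, Weight e k →
    CentralNonzero ψ k ∧ CentralNonzero ψ (1 - k)

/-! ### The order formula -/

/-- All the elements `e M ∏_{i ∈ T} d_i` are good up to nonzero squares. -/
def GoodPair (w : QBar) (e : ℤ) (M : OK) {n : ℕ} (d : Fin n → OK) : Prop :=
  ∀ T : Finset (Fin n), ∃ D k : OK, k ≠ 0 ∧ IsGood w D ∧ (e : OK) * M * ∏ i ∈ T, d i = D * k ^ 2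

/-- `H⁰(L, ℚ_2(χ)) = 0` for the field `L` fixed by `H`. -/
def NoInvariants {w : QBar} (H : Sub w) (χ : Chr w) : Prop := ∃ σ ∈ H, χ σ ≠ 1

/-- The order formula over `L = K(√d_1, …, √d_n)` for the motives `M_k` of the curve `E_M` of all
weights `2k`, `k` odd if `e = 1` and even if `e = -1`, all the terms being zero. The two equations of
`E_M` are over `K` isomorphic to the elliptic curve `ED w (tw M)`, the Galois group acts on its
`2`-adic Tate module by `κ`, `κ'`, and
* for all these `k` all the classes of the Selmer groups over `L` of `V_k = ℚ_2(κ^k κ'^(1-k))` and of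
  `V_{1-k}` are trivial, and `H⁰(L, V_j) = 0` for all `j`;
* for all sets `T` the element `e M ∏_{i ∈ T} d_i` is up to squares an element `D` of the family such
  that for `E_{e D}` the central values `L_k(1)`, `L_{1-k}(1)` are not zero for all these `k`. -/
def OrderFormula (w : QBar) (e : ℤ) (M : OK) {n : ℕ} (d : Fin n → OK) : Prop :=
  (Iso (twist (emb (gen w) M)) (ED w (tw M)) ∧ Iso (model (emb (gen w) M)) (ED w (tw M)) ∧
    (ED w (tw M)).IsElliptic ∧
    ∃ κ κ' : Chr w, TateModule (tw M) κ κ' ∧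
      ∀ s : Fin n → QBar, (∀ i, s i ^ 2 = emb w (d i)) →
        (∀ k : ℤ, Weight e k → SelmerZero (1 - w) (GalL w s) (chi κ κ' k) ∧
          SelmerZero w (GalL w s) (chi κ κ' (1 - k))) ∧
        ∀ j : ℤ, NoInvariants (GalL w s) (chi κ κ' j)) ∧
  ∀ T : Finset (Fin n), ∃ D k : OK, k ≠ 0 ∧ Adm D ∧ (e : OK) * M * ∏ i ∈ T, d i = D * k ^ 2 ∧
    CentralValues e D

/-- `D = d d'` in `ℤ[ω]` with `d ≡ 1 mod ω²`, `d ≠ 1`, such that `d` is a square modulo every prime
dividing `d'`, and `-√-7 d'` is a square modulo every prime dividing `d`. -/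
def Factorisation (D : OK) : Prop := ∃ d d' : OK, D = d * d' ∧
  (⟨0, 1⟩ : OK) ^ 2 ∣ d - 1 ∧ d ≠ 1 ∧
  (∀ p : OK, Prime p → p ∣ d' → ∃ x : OK, p ∣ x ^ 2 - d) ∧
  ∀ p : OK, Prime p → p ∣ d → ∃ x : OK, p ∣ x ^ 2 + sqrtNegSeven * d'

/-- The number of the `D` of the family with norm at most `X` and with the property `P`. -/
noncomputable def count (P : OK → Prop) (X : ℕ) : ℕ := {D : OK | norm D ≤ X ∧ Adm D ∧ P D}.ncard

/-- The property `P` has the natural density `θ` in the family. -/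
def HasDensity (P : OK → Prop) (θ : ℝ) : Prop :=
  Tendsto (fun X : ℕ => (count P X : ℝ) / (count (fun _ => True) X : ℝ)) atTop (nhds θ)

/-- The product `(1 - 1/2) (1 - 1/4) (1 - 1/8) ⋯`. -/
noncomputable def c2 : ℝ := ∏' i : ℕ, (1 - (1 / 2 : ℝ) ^ (i + 1))

/-! ### The proof -/

section proof

open Pool.Agent.N843.K (FO C8 GpK fo_iff fo_fac coreK selK fixK isoL isoS twK_ne gpK_ne denK lowK
  Sg)
open Pool.Agent.N843.E (exists_tateO)
open Pool.Agent.Results.MP_787500_nt.AllWeightsMultiquadraticX49 (elliptic galL_eq gen_sq)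

lemma adm_iff {D : OK} : Adm D ↔ C8 D :=
  ⟨fun h => ⟨h.squarefree, h.mod_eight, h.seven⟩, fun h => ⟨h.sqf, h.m8, h.n7⟩⟩

lemma rank_iff {w : QBar} (hw : w ^ 2 = w - 2) {D : OK} (hD : Adm D) :
    RankZeroShaTwo (twist (emb (gen w) D)) ↔ FO D :=
  fo_iff (gen_sq.2 hw) (Pool.Agent.N848.W.finrank_two hw) (adm_iff.1 hD) rfl

lemma good_iff {w : QBar} (hw : w ^ 2 = w - 2) {D : OK} : IsGood w D ↔ FO D := by
  constructor
  · intro h
    exact (rank_iff hw h.adm).1 h.rank
  · intro h
    have h1 : Adm D := adm_iff.2 ⟨h.sq, h.m8, h.n7⟩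
    exact ⟨h1, (rank_iff hw h1).2 h⟩

lemma sg_iff {e k : ℤ} : Weight e k ↔ 0 < k ∧ Sg e k := Iff.rfl

lemma central_of {D : OK} (h : FO D) {e : ℤ} (he : e = 1 ∨ e = -1) : CentralValues e D := by
  intro z hz
  obtain ⟨ψ, h1, h2, h3⟩ := coreK h he hz
  refine ⟨ψ, ⟨h1.mul, fun x => by rw [h1.val]; rfl⟩, fun P hP => ?_, fun k hk => h3 k hk.1 hk.2⟩
  have h4 := h2 P hP
  rw [Pool.Agent.N843.K.mK_map] at h4
  exact h4

lemma formula_of {w : QBar} (hw : w ^ 2 = w - 2) {e : ℤ} (he : e = 1 ∨ e = -1) {M : OK} {n : ℕ}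
    {d : Fin n → OK} (hG : GpK e M d) : OrderFormula w e M d := by
  obtain ⟨hM, hd0⟩ := gpK_ne hG
  refine ⟨⟨isoL hw M, isoS hw M, elliptic (twK_ne hM) hw, ?_⟩, fun T => ?_⟩
  · obtain ⟨κ, κ', ht, r, I, kd⟩ := exists_tateO hw (twK_ne hM)
    refine ⟨κ, κ', ht, fun s hs => ?_⟩
    have hs' : ∀ i, s i ^ 2 = Pool.Agent.R384.em hw (d i) := fun i => by
      rw [hs i, Pool.Agent.N843.K.emb_em hw]
    exact ⟨fun k hk => selK hw he hG kd hs' hk.2, fun j => fixK hw he hG kd hs' j⟩
  · obtain ⟨D, k, hk, hA, h1⟩ := hG T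
    exact ⟨D, k, hk, adm_iff.2 ⟨hA.sq, hA.m8, hA.n7⟩, h1, central_of hA he⟩

lemma formula_one {w : QBar} (hw : w ^ 2 = w - 2) {e : ℤ} (he : e = 1 ∨ e = -1) {D : OK}
    (h : FO D) : OrderFormula w e ((e : OK) * D) (fun i : Fin 0 => i.elim0) := by
  refine formula_of hw he fun T => ⟨D, 1, one_ne_zero, h, ?_⟩
  have hT : T = ∅ := by
    ext i
    exact i.elim0
  rw [hT, Finset.prod_empty]
  have h1 := Pool.Agent.N843.K.e_sq he
  linear_combination D * h1

end proof

/-- **The Bloch–Kato order formula in all weights for the twists of `X_0(49)` over `ℚ(√-7)`.** -/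
theorem result : ∀ w : QBar, w ^ 2 = w - 2 →
    (∀ (e : ℤ) (D : OK), (e = 1 ∨ e = -1) → IsGood w D →
      OrderFormula w e ((e : OK) * D) (fun i : Fin 0 => i.elim0)) ∧
    (∀ (e : ℤ) (n : ℕ) (M : OK) (d : Fin n → OK), (e = 1 ∨ e = -1) → GoodPair w e M d →
      OrderFormula w e M d) ∧
    (∀ D : OK, Adm D → (RankZeroShaTwo (twist (emb (gen w) D)) ↔ ¬ Factorisation D)) ∧
    HasDensity (IsGood w) c2 ∧
    (∃ δ : ℝ, 0 < δ ∧ ∀ᶠ X : ℕ in atTop, δ * X ≤ (count (IsGood w) X : ℝ)) ∧
    0.288 < c2 ∧ c2 < 0.289 := by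
  intro w hw
  have e1 : ∀ X : ℕ, count (IsGood w) X = {D : OK | norm D ≤ X ∧ Pool.Agent.N843.K.FO D}.ncard := by
    intro X
    unfold count
    congr 1
    ext D
    simp only [Set.mem_ofPred_eq]
    rw [good_iff hw]
    constructor
    · rintro ⟨h1, -, h2⟩
      exact ⟨h1, h2⟩
    · rintro ⟨h1, h2⟩
      exact ⟨h1, adm_iff.2 ⟨h2.sq, h2.m8, h2.n7⟩, h2⟩
  have e2 : ∀ X : ℕ, count (fun _ => True) X = {D : OK | norm D ≤ X ∧ Pool.Agent.N843.K.C8 D}.ncard := by
    intro X
    unfold count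
    congr 1
    ext D
    simp only [Set.mem_ofPred_eq, and_true]
    rw [adm_iff]
  refine ⟨fun e D he h => formula_one hw he ((good_iff hw).1 h), fun e n M d he h => ?_,
    fun D hD => (rank_iff hw hD).trans (Pool.Agent.N843.K.fo_fac (adm_iff.1 hD)), ?_, ?_, ?_, ?_⟩
  · refine formula_of hw he fun T => ?_
    obtain ⟨D, k, hk, h1, h2⟩ := h T
    exact ⟨D, k, hk, (good_iff hw).1 h1, h2⟩
  · unfold HasDensity
    simp only [e1, e2]
    exact Pool.Agent.N843.K.denK Pool.Agent.N843.CK.t_DEN1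
  · simp only [e1]
    exact Pool.Agent.N843.K.lowK Pool.Agent.N843.CK.t_DEN1
  · exact Pool.Agent.R426.QK.MOM.t_C2.2.2.2.1
  · exact Pool.Agent.R426.QK.MOM.t_C2.2.2.2.2

end Pool.Agent.Results.MP_ec4e4b_nt.AllWeightsOverK
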