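import Pool.Agent.N970.AVP.Bk
import Pool.Agent.N970.AVP.TotI

/-!
# The order of vanishing formula for products of quadratic twists of three modular curves over
# multiquadratic fields

The curves `C_0 = X_0(15) : y² = x (x + 9) (x - 16)`, `C_1 : y² = x (x + 1) (x - 16)` of conductor `17` and
`C_2 = X_0(21) : y² = x (x - 9) (x + 7)` are semistable and have no complex multiplication; `C_{j, m}` is the
twist of `C_j` by `m`. We consider the polarized motives `M = h¹(A)(1) = ⊕_i h¹(C_{j_i, e_i})(1)` of the
abelian varieties `A = ∏_i C_{j_i, e_i}` of any dimension, for any `j_i` and any nonzero integers `e_i`, over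
the multiquadratic fields `K = ℚ(√d_1, …, √d_r)`, real or imaginary, of any degree `2 ^ r`.

Call `A` good over `K` if the curves `C_{j_i, e_i d_T}` over `ℚ`, `d_T = ∏_{t ∈ T} d_t`, which are the
factors of the Weil restriction of `A` from `K` to `ℚ`, have finitely many rational points and no
element of order two in the Tate-Shafarevich group.

(1) If `A` is good over `K`, then the order of vanishing formula holds for `M` over `K` and `p = 2`, with both
sides zero: `L(A/K, s)` is entire and does not vanish at the central point `s = 1` (`s = 0` for `M`), and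
`H⁰(K, V_2 A)` and the Bloch-Kato Selmer group `H¹_f(K, V_2 A)` are zero.
(2) The proportion of the good `A` over `ℚ` among all the products with squarefree `e_i`, `|e_i| ≤ X`, tends
to `∏_i δ_{j_i}`, `δ_0 = η / 2 = 0.1444…`, `δ_1 = c / 2 = 0.2097…`, `δ_2 = 137 η / 256 = 0.1545…`, where
`η = ∏ (1 - 2^{-i})` and `c = ∏ (1 - 2^{-(2 i - 1)})`.
(3) The proportion of the quadratic fields `K`, real or imaginary, ordered by the discriminant, over which a
product `A` of the curves `C_0`, `C_1`, `C_2` is good, is for every `A` exactly `δ_S`, `S` the set of the `j`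
such that `C_j` occurs in `A`: `δ_j` if `S = {j}`, `433 η c / 1728 = 0.0303…` if `S = {0, 1}`,
`443 η / 3072 = 0.0416…` if `S = {0, 2}`, `2461 η c / 9216 = 0.0323…` if `S = {1, 2}`, and
`8065 η c / 110592 = 0.0088…` if all the three curves occur. For these `K` the formula holds over `K`.
(4) For the imaginary quadratic fields `K` in which `3` is not inert and `5` is not split (for `X_0(15)`), `3`
is not split and `7` is not inert (for `X_0(21)`), the product `X_0(15)^a × X_0(21)^b` is good over `K` if and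
only if `K` has no ideal class of order four. These are a proportion of exactly `η` of the fields of the
family.

`H1f 2 W` (`Pool.Agent.Y667.BKP.H1f`, by helper667) is the group of the classes of the continuous
cocycles of the absolute Galois group with values in `V_2 W = T_2 W ⊗ ℚ_2` whose restriction to the
completion at every place is in the image of the Kummer map; this is the condition of Bloch and Kato.
An element of `V_2 W` is described by a sequence of points (`IsV 2 W`). The `L`-function is taken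
without the finitely many Euler factors at the places of bad reduction, which are finite and not zero at
the central point.

(1) rests on the theorems for one curve over `ℚ` (problem `MP_696deb_nt`, files `Conductor15`,
`Conductor17`, `Conductor21`, joint work of helpers 969, 877, 809, 970, 971, 972, 973, 974, 975, 99, 218,
402, 575, 637, 816, 844, 855, 871, 875, 878, 886, 890, 916, 919, 958 and others), on the factorization
of the `L`-function and the 2-primary part of `Ш` over multiquadratic fields (helpers 687, 723, 494, 413,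
841 and others) and on the library of helpers 667 and 390 for the Bloch-Kato groups; the densities for
one curve are due to helpers 916 and 919, the joint law of the three curves to helpers 809, 877, 963, 972,
975.
-/

set_option autoImplicit false

open NumberField IsDedekindDomain Filter Topology
open Pool.Agent.TH841.SH.D (Gal act)
open Pool.Agent.Y667.BKP (H1f PSeq IsV)

namespace Pool.Agent.Results.MP_ec4e4b_nt.AllTwistsNonCM

/-- the coefficient `a` of the equation `y² = x³ + a x + b` of the twist by `m` of the curve `C_j` -/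
def A (j : Fin 3) (m : ℤ) : ℤ := (![-12987, -91, -5211] : Fin 3 → ℤ) j * m ^ 2

/-- the coefficient `b` of the equation `y² = x³ + a x + b` of the twist by `m` of the curve `C_j` -/
def B (j : Fin 3) (m : ℤ) : ℤ := (![-263466, -330, -31050] : Fin 3 → ℤ) j * m ^ 3

/-- the twist `C_{j, m}` by `m` of the curve `C_j`, over the field `K` -/
def E (K : Type) [Field K] (j : Fin 3) (m : ℤ) : WeierstrassCurve K :=
  { a₁ := 0, a₂ := 0, a₃ := 0, a₄ := (A j m : K), a₆ := (B j m : K) }

/-- `C_{j, m}(ℚ)` is finite and `Ш(C_{j, m}/ℚ)` has no element of order two -/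
def RankZeroShaTwo (j : Fin 3) (m : ℤ) : Prop :=
  Finite (E ℚ j m).toAffine.Point ∧ ∀ x : Pool.Agent.TH841.NF.D.Sha (E ℚ j m), 2 • x = 0 → x = 0

/-- `ℚ(√d_1, …, √d_r)` has degree `2 ^ r` -/
def Independent {r : ℕ} (d : Fin r → ℤ) : Prop :=
  ∀ T : Finset (Fin r), T.Nonempty → ¬ IsSquare (∏ t ∈ T, d t)

/-- `K = ℚ(√d_1, …, √d_r)` -/
def IsMultiquadratic {r : ℕ} (d : Fin r → ℤ) (K : Type) [Field K] [NumberField K] : Prop :=
  ∃ x : Fin r → K, (∀ t, x t ^ 2 = (d t : K)) ∧ IntermediateField.adjoin ℚ (Set.range x) = ⊤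

/-- the number `q_v` of elements of the residue field of a finite place `v` of `K` -/
noncomputable def qv (K : Type) [Field K] (v : HeightOneSpectrum (𝓞 K)) : ℕ :=
  Nat.card (𝓞 K ⧸ v.asIdeal)

/-- `a_v = q_v + 1 - #E(k_v)` for `E : y² = x³ + a x + b`, that is `q_v` minus the number of affine
points over the residue field -/
noncomputable def av (K : Type) [Field K] (a b : ℤ) (v : HeightOneSpectrum (𝓞 K)) : ℤ :=
  (qv K v : ℤ) - Nat.card {z : (𝓞 K ⧸ v.asIdeal) × (𝓞 K ⧸ v.asIdeal) //
    z.2 ^ 2 = z.1 ^ 3 + (a : 𝓞 K ⧸ v.asIdeal) * z.1 + (b : 𝓞 K ⧸ v.asIdeal)}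

open Classical in
/-- `F` is entire and is, for `Re s > 3/2`, the `L`-function of the product of the curves `C_{j i, e i}`
over `K` without the Euler factors at the places dividing `3570 · D = 2 · 3 · 5 · 7 · 17 · D` and the
`e i` -/
def IsL {ι : Type} [Fintype ι] (K : Type) [Field K] (j : ι → Fin 3) (e : ι → ℤ) (D : ℤ)
    (F : ℂ → ℂ) : Prop :=
  Differentiable ℂ F ∧ ∀ s : ℂ, (3 : ℝ) / 2 < s.re →
    HasProd (fun v : HeightOneSpectrum (𝓞 K) =>
      if ((3570 * (∏ i, e i) * D : ℤ) : 𝓞 K) ∈ v.asIdeal then 1 else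
        ∏ i, (1 - (av K (A (j i) (e i)) (B (j i) (e i)) v : ℂ) * (qv K v : ℂ) ^ (-s) +
          (qv K v : ℂ) ^ (1 - 2 * s))⁻¹) (F s)

/-- `A` is good over `K = ℚ(√d_1, …, √d_r)`: the curves `C_{j_i, e_i ∏_{t ∈ T} d_t}` over `ℚ`, which are the
factors of the Weil restriction of `A` from `K` to `ℚ`, have finitely many rational points and no
element of order two in the Tate-Shafarevich group -/
def Good {ι : Type} {r : ℕ} (d : Fin r → ℤ) (j : ι → Fin 3) (e : ι → ℤ) : Prop :=
  ∀ i, ∀ T : Finset (Fin r), RankZeroShaTwo (j i) (e i * ∏ t ∈ T, d t)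

/-- the proportions `η / 2`, `c / 2`, `137 η / 256` -/
noncomputable def delta : Fin 3 → ℝ :=
  ![(∏' i : ℕ, (1 - (1 / 2 : ℝ) ^ (i + 1))) / 2, (∏' i : ℕ, (1 - (1 / 2 : ℝ) ^ (2 * i + 1))) / 2,
    137 / 256 * ∏' i : ℕ, (1 - (1 / 2 : ℝ) ^ (i + 1))]

/-- the proportions `δ_S`, `S` the (nonempty) set of the `j` such that `C_j` occurs: `η / 2`, `c / 2`,
`137 η / 256` for one curve, `433 η c / 1728` for `S = {0, 1}`, `443 η / 3072` for `S = {0, 2}`,
`2461 η c / 9216` for `S = {1, 2}`, `8065 η c / 110592` for all three -/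
noncomputable def deltaS (S : Finset (Fin 3)) : ℝ :=
  if 1 ∈ S then
    if 0 ∈ S then
      (if 2 ∈ S then 8065 / 110592 else 433 / 1728) *
        ((∏' i : ℕ, (1 - (1 / 2 : ℝ) ^ (i + 1))) * ∏' i : ℕ, (1 - (1 / 2 : ℝ) ^ (2 * i + 1)))
    else if 2 ∈ S then
      2461 / 9216 *
        ((∏' i : ℕ, (1 - (1 / 2 : ℝ) ^ (i + 1))) * ∏' i : ℕ, (1 - (1 / 2 : ℝ) ^ (2 * i + 1)))
    else (∏' i : ℕ, (1 - (1 / 2 : ℝ) ^ (2 * i + 1))) / 2
  else
    (if 0 ∈ S then (if 2 ∈ S then 443 / 3072 else 1 / 2) else 137 / 256) *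
      ∏' i : ℕ, (1 - (1 / 2 : ℝ) ^ (i + 1))

open Classical in
/-- the number of the families `(e i)` of squarefree integers, `|e i| ≤ X`, with the property `P` -/
noncomputable def countFam {ι : Type} [Fintype ι] (P : (ι → ℤ) → Prop) (X : ℕ) : ℕ :=
  ((Fintype.piFinset fun _ : ι => Finset.Icc (-(X : ℤ)) X).filter fun e =>
    (∀ i, Squarefree (e i)) ∧ P e).card

/-- `D` is a fundamental discriminant (`1` included) -/
def Fund (D : ℤ) : Prop := (Squarefree D ∧ D % 4 = 1) ∨
  ∃ m : ℤ, D = 4 * m ∧ Squarefree m ∧ (m % 4 = 2 ∨ m % 4 = 3)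

open Classical in
/-- the number of the quadratic fields with a discriminant `D`, `|D| ≤ X`, which has the property `P` -/
noncomputable def countQuad (P : ℤ → Prop) (X : ℕ) : ℕ :=
  ((Finset.Icc (-(X : ℤ)) X).filter fun D => Fund D ∧ D ≠ 1 ∧ P D).card

/-- the local conditions on the quadratic field of discriminant `D` for the curve `C_j`: `3` is not
inert and `5` is not split for `X_0(15)`, `3` is not split and `7` is not inert for `X_0(21)`; the curve
of conductor `17` is not allowed -/
def Allowed : Fin 3 → ℤ → Prop :=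
  ![fun D => D % 3 ≠ 2 ∧ ¬ (D % 5 = 1 ∨ D % 5 = 4), fun _ => False,
    fun D => D % 3 ≠ 1 ∧ ¬ (D % 7 = 3 ∨ D % 7 = 5 ∨ D % 7 = 6)]

/-- the ideal class group of `ℚ(√D)` has no element of order four -/
def NoOrderFour (D : ℤ) : Prop :=
  ∀ (K : Type) [Field K] [NumberField K], Module.finrank ℚ K = 2 →
    (∃ s : K, s ^ 2 = (D : K)) →
    ∀ c : ClassGroup (NumberField.RingOfIntegers K), c ^ 4 = 1 → c ^ 2 = 1

/-- `H⁰(F, V_2 W) = 0`: the elements of `V_2 W` that are fixed by the Galois group are zero. -/
def NoInvariants {F : Type} [Field F] (W : WeierstrassCurve F) : Prop :=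
  ∀ x : PSeq W, IsV 2 W x → (∀ (σ : Gal F) (n : ℕ), act W σ.toAlgHom (x n) = x n) → ∀ n, x n = 0

/-- The order of vanishing formula for the product `A` of the curves `C_{j i, e i}` over `K` and `p = 2`,
with both sides zero: the `L`-function extends to an entire function whose order at `s = 1` is `0`, and
`H⁰(K, V_2 C_{j i, e i})` and `H¹_f(K, V_2 C_{j i, e i})` are zero for all `i`. -/
def OrderFormula {ι : Type} [Fintype ι] (K : Type) [Field K] [NumberField K] (j : ι → Fin 3)
    (e : ι → ℤ) (D : ℤ) : Prop :=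
  (∃ F : ℂ → ℂ, IsL K j e D F) ∧ (∀ F : ℂ → ℂ, IsL K j e D F → analyticOrderAt F 1 = 0) ∧
    ∀ i, NoInvariants (E K (j i) (e i)) ∧ ∀ x : H1f 2 (E K (j i) (e i)), x = 0

/-- **The order of vanishing formula for products of quadratic twists of three modular curves over
multiquadratic fields.** -/
theorem result {ι : Type} [Fintype ι] [Nonempty ι] :
    -- the formula for good products over all multiquadratic fields
    (∀ (r : ℕ) (d : Fin r → ℤ), Independent d → ∀ (j : ι → Fin 3) (e : ι → ℤ), (∀ i, e i ≠ 0) →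
      Good d j e → ∀ (K : Type) [Field K] [NumberField K], IsMultiquadratic d K →
        Module.finrank ℚ K = 2 ^ r ∧ OrderFormula K j e (∏ t, d t)) ∧
    -- the same for the quadratic field of discriminant `D`
    (∀ (D : ℤ), Fund D → D ≠ 1 → ∀ j : ι → Fin 3, Good (fun _ : Fin 1 => D) j (fun _ => 1) →
      ∀ (K : Type) [Field K] [NumberField K], Module.finrank ℚ K = 2 → (∃ x : K, x ^ 2 = (D : K)) →
        OrderFormula K j (fun _ => 1) D) ∧
    -- the proportion of the good products over `ℚ` among all products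
    (∀ j : ι → Fin 3, Tendsto (fun X : ℕ =>
      (countFam (fun e : ι → ℤ => Good (Fin.elim0 : Fin 0 → ℤ) j e) X : ℝ) /
        (countFam (fun _ : ι → ℤ => True) X : ℝ)) atTop (nhds (∏ i, delta (j i)))) ∧
    -- the proportion of the quadratic fields over which the product of the `C_{j_i}` is good
    (∀ j : ι → Fin 3, Tendsto (fun X : ℕ =>
      (countQuad (fun D => Good (fun _ : Fin 1 => D) j (fun _ => 1)) X : ℝ) /
        (countQuad (fun _ => True) X : ℝ)) atTop (nhds (deltaS (Finset.univ.image j)))) ∧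
    -- products of `X_0(15)` and `X_0(21)` over imaginary quadratic fields: ideal classes of order four
    (∀ (j : ι → Fin 3) (D : ℤ), Fund D → D < 0 → (∀ i, Allowed (j i) D) →
      (Good (fun _ : Fin 1 => D) j (fun _ => 1) ↔ NoOrderFour D)) ∧
    (∀ j : ι → Fin 3, (∀ i, j i ≠ 1) → Tendsto (fun X : ℕ =>
      (countQuad (fun D => (D < 0 ∧ ∀ i, Allowed (j i) D) ∧
        Good (fun _ : Fin 1 => D) j (fun _ => 1)) X : ℝ) /
        (countQuad (fun D => D < 0 ∧ ∀ i, Allowed (j i) D) X : ℝ)) atTop
      (nhds (∏' i : ℕ, (1 - (1 / 2 : ℝ) ^ (i + 1))))) ∧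
    0.1443 < delta 0 ∧ delta 0 < 0.1445 ∧ 0.2096 < delta 1 ∧ delta 1 < 0.2098 ∧
      0.1544 < delta 2 ∧ delta 2 < 0.1547 := by
  obtain ⟨-, h2, -, -, h5, h6, -, h7⟩ := Pool.Agent.N970.AVP.main (ι := ι)
  exact ⟨fun _ _ hi _ _ he hg K _ _ hK => Pool.Agent.N970.AVP.formula hi he hg K hK,
    fun _ hD h1 _ hg K _ _ hr hs => Pool.Agent.N970.AVP.quad hD h1 hg K hr hs, h2,
    fun j => Pool.Agent.N970.AVP.dens_prod Pool.Agent.N970.AVP.totF j, h5, h6, h7⟩

end Pool.Agent.Results.MP_ec4e4b_nt.AllTwistsNonCM
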