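import Mathlib
import Pool.Agent.N843.Em
import Pool.Agent.N843.Fb

/-!
# The Bloch–Kato order formula in all weights over multiquadratic fields of every degree, for a positive
# proportion of the twists of `X_0(49)` of a class

`K = ℚ(√-7)` with ring of integers `ℤ[ω]`, `ω² = ω - 2`, and `E_M` is the quadratic twist by `M` of
`X_0(49)`, an elliptic curve over `ℚ` with complex multiplication by `ℤ[ω]`; `ψ_M` is its Hecke
character. For `k > 0` the motive `h^{2k-1}(E_M^{2k-1})(k)` over `ℚ` has the direct summand `M_k`, the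
polarized motive of rank two of the newform of weight `2k` of the Hecke character `ψ_M^{2k-1}`. The
group `Gal(ℚ̄/K)` acts on the `2`-adic Tate module of `E_M` by two characters `κ`, `κ'`, and the
`2`-adic realization of `M_k` is over `K` the sum `V_k ⊕ V_{1-k}`, where `V_j = ℚ_2(κ^j κ'^(1-j))`.
Over `L = K(√d_1, …, √d_n)` the `L`-function of `V_j` is the product over the sets
`T ⊆ {1, …, n}` of the functions `L_j(s)` of the twists `D = M ∏_{i ∈ T} d_i` (up to squares), where
`L_j(s)` is the Euler product of the `(1 - ψ_D(P)^j ψ̄_D(P)^(1-j) N(P)^(-s))⁻¹` and the centre is `s = 1`.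

The class consists of the squarefree `D = 1 mod 8` with all prime factors `1 mod 8` and split in `K` or
`5 mod 8` and inert in `K`.
* For all `M`, `d_1, …, d_n` of the class, `L = K(√d_1, …, √d_n)` of degree `2^n` over `K`, and for at
  least the proportion `c ^ (2 ^ n)` of the `D` of the class, `c = 0.4194…`, the order formula of Bloch
  and Kato holds at the prime `2` over `L` in **all** weights `2k`, for the motives `M_k` of `E_{MD}` for
  odd `k` and of `E_{-MD}` for even `k`: all the central values `L_k(1)`, `L_{1-k}(1)` are not zero,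
  `H¹_f(L, V_k) = H¹_f(L, V_{1-k}) = 0` and `H⁰(L, V_k) = H⁰(L, V_{1-k}) = 0`.
* For all `M` of the class such that `E_M(ℚ)` is finite and `Ш(E_M/ℚ)` has no element of order two
  there is an infinite tower `L_0 = K ⊂ L_1 ⊂ L_2 ⊂ …` of such fields, `[L_n : K] = 2^n`, such that the
  order formula holds over all the `L_n` in all weights `2k`, for the motives `M_k` of `E_M` for odd
  `k` and of `E_{-M}` for even `k`, all the terms being zero.

The central values are not zero because of the exact power of a prime above `2` in their algebraic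
parts: congruences modulo `4` and `16` between Eisenstein–Kronecker series and an induction over the
sets of the prime elements of `K` dividing `D` reduce all the `k` to `k = 1`.
-/

set_option autoImplicit false

namespace Pool.Agent.Results.MP_ec4e4b_nt.AllWeightsMultiquadratic

open Pool.Agent.Results.MP_787500_nt.AllWeightsMultiquadraticX49 (QBar OK emb ED Gal Sub Chr
  TateModule chi RankZeroShaTwo GalL K Iso SelmerZero Adm Ind InClass AtLeast)
open WeierstrassCurve IsDedekindDomain Filter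
open scoped Classical

/-! ### The curves, the Hecke characters and the central values -/

/-- The curve `E_d : y² = x³ - 3 d x² - 32 d² x - 64 d³`, the quadratic twist by `d` of
`X_0(49) : y² + x y = x³ - x² - 2 x - 1`. -/
def model (d : ℤ) : WeierstrassCurve ℤ := ⟨0, -3 * d, 0, -32 * d ^ 2, -64 * d ^ 3⟩

/-- The weights `2k` for the twist by `d`: `k > 0` is odd if `d > 0` and even if `d < 0`. -/
def Weight (d k : ℤ) : Prop := 0 < k ∧ ((0 < d ∧ Odd k) ∨ (d < 0 ∧ Even k))

/-- The value at `n > 0` of the quadratic character of `ℚ(√d)`, for odd squarefree `d` with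
`|d| ≡ 1 mod 4`: it is the Jacobi symbol `(n / |d|)`, multiplied by the nontrivial character modulo
`4` if `d < 0`. -/
def quad (d n : ℤ) : ℤ := (if d < 0 then ZMod.χ₄ (n : ZMod 4) else 1) * jacobiSym n d.natAbs

/-- `ψ` is the Hecke character of `K` with `ψ((x)) = (x / √-7) χ_d(N(x)) x` for `x` in `ℤ[ω]`; as
`ω = 4` modulo `√-7`, the first symbol is the Legendre symbol of `a + 4 b` modulo `7`, for
`x = a + b ω`, and `N(x) = a² + a b + 2 b²`. The values are in `ℂ` by the embedding of `K` which maps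
`ω` to `z`. -/
structure IsHecke (d : ℤ) (z : ℂ) (ψ : Ideal OK → ℂ) : Prop where
  mul : ∀ I J : Ideal OK, ψ (I * J) = ψ I * ψ J
  val : ∀ x : OK, ψ (Ideal.span {x}) = (jacobiSym (x.re + 4 * x.im) 7 : ℂ) *
    (quad d (x.re ^ 2 + x.re * x.im + 2 * x.im ^ 2) : ℂ) * emb z x

/-- `ψ` is the Hecke character of `E_d`: for all primes `P` of `K` that do not divide `14 d` the
number of the affine points of the reduction of `E_d` modulo `P` is `N(P) - ψ(P) - ψ̄(P)`. -/
def IsHeckeOf (d : ℤ) (ψ : Ideal OK → ℂ) : Prop :=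
  ∀ P : HeightOneSpectrum OK, ((14 * d : ℤ) : OK) ∉ P.asIdeal →
    ((Nat.card {x : (OK ⧸ P.asIdeal) × (OK ⧸ P.asIdeal) //
      ((model d).map (Int.castRingHom (OK ⧸ P.asIdeal))).toAffine.Equation x.1 x.2} : ℕ) : ℂ) =
      (Nat.card (OK ⧸ P.asIdeal) : ℂ) - (ψ P.asIdeal + (starRingEnd ℂ) (ψ P.asIdeal))

/-- The Euler product `L_j(s)` of the `(1 - ψ(P) ^ j ψ̄(P) ^ (1 - j) N(P) ^ (-s))⁻¹` converges for
`Re s > 3/2`, continues to an entire function and is not zero at `s = 1`. -/
def CentralNonzero (ψ : Ideal OK → ℂ) (j : ℤ) : Prop :=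
  ∃ L : ℂ → ℂ, Differentiable ℂ L ∧
    (∀ s : ℂ, 3 / 2 < s.re → HasProd (fun P : HeightOneSpectrum OK =>
      (1 - ψ P.asIdeal ^ j * (starRingEnd ℂ) (ψ P.asIdeal) ^ (1 - j) *
        (Nat.card (OK ⧸ P.asIdeal) : ℂ) ^ (-s))⁻¹) (L s)) ∧ L 1 ≠ 0

/-- For the two complex embeddings of `K` the curve `E_d` has a Hecke character `ψ`, and `L_k(1)` and
`L_{1-k}(1)` are not zero for all the `k` in `Weight d`. -/
def CentralValues (d : ℤ) : Prop := ∀ z : ℂ, z ^ 2 = z - 2 → ∃ ψ : Ideal OK → ℂ,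
  IsHecke d z ψ ∧ IsHeckeOf d ψ ∧ ∀ k : ℤ, Weight d k →
    CentralNonzero ψ k ∧ CentralNonzero ψ (1 - k)

/-! ### The order formula -/

/-- `D ≥ 1` is squarefree, `D ≡ 1 mod 8`, `7 ∤ D`, `E_D(ℚ)` is finite and `Ш(E_D/ℚ)` has no element of
order two. -/
structure IsGood (D : ℕ) : Prop where
  squarefree : Squarefree D
  mod_eight : D % 8 = 1
  seven : ¬ 7 ∣ D
  rank : RankZeroShaTwo D

/-- All the numbers `|M| ∏_{i ∈ T} d_i` are good up to nonzero squares. -/
def GoodPair (M : ℤ) {n : ℕ} (d : Fin n → ℕ) : Prop := ∀ T : Finset (Fin n), ∃ D k : ℕ,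
  k ≠ 0 ∧ IsGood D ∧ M.natAbs * ∏ i ∈ T, d i = D * k ^ 2

/-- `H⁰(L, ℚ_2(χ)) = 0` for the field `L` fixed by `H`. -/
def NoInvariants {w : QBar} (H : Sub w) (χ : Chr w) : Prop := ∃ σ ∈ H, χ σ ≠ 1

/-- The element `-√-7 d` of `ℤ[ω]`. -/
def tw (d : ℤ) : OK := ⟨d, -2 * d⟩

/-- The order formula over `L = K(√d_1, …, √d_n)` for the motives `M_k` of the curve `E_M` of all
weights `2k`, `k` odd if `M > 0` and even if `M < 0`, all the terms being zero. The curve `E_M` is over
`K` isomorphic to the elliptic curve `ED w (tw M)`, the Galois group acts on its `2`-adic Tate module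
by `κ`, `κ'`, and
* for all these `k` all the classes of the Selmer groups over `L` of `V_k = ℚ_2(κ^k κ'^(1-k))` and of
  `V_{1-k}` are trivial, and `H⁰(L, V_j) = 0` for all `j`;
* for all sets `T` the number `|M| ∏_{i ∈ T} d_i` is up to squares a number `D` such that for `E_D` if
  `M > 0` and for `E_{-D}` if `M < 0` the central values `L_k(1)`, `L_{1-k}(1)` are not zero for all
  these `k`. -/
def OrderFormula (M : ℤ) {n : ℕ} (d : Fin n → ℕ) : Prop :=
  (∀ w : QBar, w ^ 2 = w - 2 →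
    Iso ((model M).map (Int.castRingHom (K w))) (ED w (tw M)) ∧ (ED w (tw M)).IsElliptic ∧
    ∃ κ κ' : Chr w, TateModule (tw M) κ κ' ∧
      ∀ s : Fin n → QBar, (∀ i, s i ^ 2 = (d i : QBar)) →
        (∀ k : ℤ, Weight M k → SelmerZero (1 - w) (GalL w s) (chi κ κ' k) ∧
          SelmerZero w (GalL w s) (chi κ κ' (1 - k))) ∧
        ∀ j : ℤ, NoInvariants (GalL w s) (chi κ κ' j)) ∧
  ∀ T : Finset (Fin n), ∃ D k : ℕ, k ≠ 0 ∧ D % 4 = 1 ∧ M.natAbs * ∏ i ∈ T, d i = D * k ^ 2 ∧
    CentralValues (M.sign * D)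

/-- There is an infinite sequence `D_0, D_1, …` of members of the class such that for all `n` the
field `L_n = K(√D_0, …, √D_{n-1})` has degree `2 ^ n` over `K` (no product of some of the `D_i` is a
square), and the order formula holds over `L_n` for the curves `E_M` (`k` odd) and `E_{-M}` (`k`
even). -/
def InfiniteTower (M : ℕ) : Prop :=
  ∃ D : ℕ → ℕ, (∀ i, Adm (D i)) ∧ ∀ n : ℕ, Ind (fun i : Fin n => D i) ∧
    OrderFormula M (fun i : Fin n => D i) ∧ OrderFormula (-M) (fun i : Fin n => D i)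

/-- The constant `c = 0.4194…`. -/
noncomputable def c : ℝ := ∏' i : ℕ, (1 - (1 / 2 : ℝ) ^ (2 * i + 1))

/-! ### The proof -/

section proof

open Pool.Agent.N843.Z
open Pool.Agent.N843.A (coreZ isoZ selZ fixZ twZ_ne)
open Pool.Agent.N843.E (exists_tateO)
open Pool.Agent.Results.MP_787500_nt.AllWeightsMultiquadraticX49 (elliptic galL_eq)

lemma fm_of {D : ℕ} (h : IsGood D) : Fm D := ⟨h.squarefree, h.mod_eight, h.seven, h.rank⟩

lemma central_of {D : ℕ} (h : IsGood D) {d : ℤ} (hd : d = D ∨ d = -(D : ℤ)) :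
    CentralValues d := by
  intro z hz
  obtain ⟨ψ, h1, h2, h3⟩ := coreZ (fm_of h) hd hz
  exact ⟨ψ, ⟨h1.mul, fun x => by rw [h1.val]; rfl⟩, h2, fun k hk => h3 k hk⟩

lemma gp_of {M : ℤ} {n : ℕ} {d : Fin n → ℕ} (hG : GoodPair M d) : Gp M.natAbs d := fun T => by
  obtain ⟨D, k, hk, h1, h2⟩ := hG T
  exact ⟨D, k, hk, fm_of h1, h2⟩

lemma formula_of {M : ℤ} {n : ℕ} {d : Fin n → ℕ} (hG : GoodPair M d) : OrderFormula M d := by
  have hG' := gp_of hG
  obtain ⟨hM0, hd0⟩ := gp_ne hG'
  have hM : M ≠ 0 := Int.natAbs_ne_zero.1 hM0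
  refine ⟨fun w hw => ?_, fun T => ?_⟩
  · obtain ⟨κ, κ', ht, r, I, kd⟩ := exists_tateO hw (twZ_ne hM)
    refine ⟨isoZ hw M, elliptic (twZ_ne hM) hw, κ, κ', ht, fun s hs =>
      ⟨selZ hw hG' kd hs, fun j => ?_⟩⟩
    obtain ⟨σ, h1, h2⟩ := fixZ hw hG' kd hs j
    refine ⟨σ, ?_, ?_⟩
    · rw [galL_eq]
      exact fun i _ => h1 i
    · unfold chi
      rw [h2]
      intro h3
      have h4 : ((1 : ℤ_[2]ˣ) : ℤ_[2]) = ((-1 : ℤ_[2]ˣ) : ℤ_[2]) := (congrArg Units.val h3).symm
      rw [Units.val_neg, Units.val_one] at h4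
      have h5 : (2 : ℤ_[2]) = 0 := by linear_combination h4
      exact two_ne_zero h5
  · obtain ⟨D, k, hk, hA, he⟩ := hG T
    refine ⟨D, k, hk, by have := hA.mod_eight; omega, he, central_of hA ?_⟩
    rcases lt_or_gt_of_ne hM with h | h
    · right
      rw [Int.sign_eq_neg_one_of_neg h]
      ring
    · left
      rw [Int.sign_eq_one_of_pos h]
      ring

lemma formula_pm {N : ℕ} {n : ℕ} {d : Fin n → ℕ} (hG : Gp N d) :
    OrderFormula N d ∧ OrderFormula (-N) d := by
  have h : ∀ M : ℤ, M.natAbs = N → OrderFormula M d := fun M hM => formula_of fun T => by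
    obtain ⟨D, k, h1, h2, h3⟩ := hG T
    rw [← hM] at h3
    exact ⟨D, k, h1, ⟨h2.sq, h2.m8, h2.n7, h2.rz⟩, h3⟩
  exact ⟨h _ (Int.natAbs_natCast N), h _ (by rw [Int.natAbs_neg, Int.natAbs_natCast])⟩

end proof

/-- **The Bloch–Kato order formula in all weights over multiquadratic fields**, for at least the
proportion `c ^ (2 ^ n)` of the twists of the class, over every field `L = K(√d_1, …, √d_n)` of the
class, and over infinite towers of fields. -/
theorem result :
    (∀ (n M : ℕ) (d : Fin n → ℕ), InClass M d → AtLeast (c ^ 2 ^ n) fun D =>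
      OrderFormula ((M * D : ℕ) : ℤ) d ∧ OrderFormula (-((M * D : ℕ) : ℤ)) d) ∧
    (∀ M : ℕ, Adm M → RankZeroShaTwo M → InfiniteTower M) ∧
    0.4194 < c ∧ c < 0.4195 := by
  refine ⟨fun n M d h => Pool.Agent.F843.atLeast_gp h fun D hD => formula_pm hD,
    fun M hM hR => ?_, Pool.Agent.Y948.CQ.t_C2.2.2.2.1, Pool.Agent.Y948.CQ.t_C2.2.2.2.2⟩
  obtain ⟨D, h1, h2⟩ := Pool.Agent.F843.exists_tower hM hR
  exact ⟨D, h1, fun n => ⟨(h2 n).1, formula_pm (h2 n).2⟩⟩

end Pool.Agent.Results.MP_ec4e4b_nt.AllWeightsMultiquadratic
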