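import Mathlib
import Pool.Agent.N843.Em

/-!
# The Bloch–Kato order formula in all weights for the twists of `X_0(49)`: exact natural density

`K = ℚ(√-7)` with ring of integers `ℤ[ω]`, `ω² = ω - 2`, and `E_d` is the quadratic twist by `d` of
`X_0(49)`, an elliptic curve over `ℚ` with complex multiplication by `ℤ[ω]`; `ψ_d` is its Hecke
character. For `k > 0` the motive `h^{2k-1}(E_d^{2k-1})(k)` over `ℚ` has the direct summand `M_k`, the
polarized motive of rank two of the newform of weight `2k` of the Hecke character `ψ_d^{2k-1}`. The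
group `Gal(ℚ̄/K)` acts on the `2`-adic Tate module of `E_d` by two characters `κ`, `κ'`, and the
`2`-adic realization of `M_k` is over `K` the sum `V_k ⊕ V_{1-k}`, where `V_j = ℚ_2(κ^j κ'^(1-j))`.
The `L`-function of `V_j` over `K` is `L_j(s)`, the Euler product of the
`(1 - ψ_d(P)^j ψ̄_d(P)^(1-j) N(P)^(-s))⁻¹`; the centre is `s = 1`.

The family consists of **all** squarefree `D ≥ 1` with `D ≡ 1 mod 8` and `7 ∤ D`, without a condition
on the prime factors. Let `D` be good if `E_D(ℚ)` is finite and `Ш(E_D/ℚ)` has no element of order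
two, a condition on the weight `2` and the field `ℚ` only.
* If `D` is good, then the order formula of Bloch and Kato holds at the prime `2` over `K` in **all**
  weights `2k`: for the motives `M_k` of `E_D` for all odd `k > 0`, and for the motives `M_k` of the
  other twist `E_{-D}` for all even `k > 0`. All the central values `L_k(1)`, `L_{1-k}(1)` are not
  zero, `H¹_f(K, V_k) = H¹_f(K, V_{1-k}) = 0`, `H⁰(K, V_k) = H⁰(K, V_{1-k}) = 0`. More generally this
  holds over `L = K(√d_1, …, √d_n)` for the curves `E_M`, `M > 0` and `k` odd, or `M < 0` and `k` even,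
  if all the products `|M| ∏_{i ∈ T} d_i` are good up to squares.
* The condition on `D` is equivalent to: there is no factorisation `D = d d'` in `ℤ[ω]` with
  `d ≡ 1 mod ω²`, `d ≠ 1`, such that `d` is a square modulo every prime dividing `d'` and `-√-7 d'`
  is a square modulo every prime dividing `d`.
* The natural density of the good `D` in the family is **exactly** `c / 2`,
  `c = ∏_{i ≥ 0} (1 - 2^{-(2i+1)}) = 0.4194…`, and it is the same in every residue class `a` modulo
  `m`, `56 ∣ m`, `(a, m) = 1`, `a ≡ 1 mod 8`, and in every union of such classes.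

The central values are not zero because of the exact power of a prime above `2` in their algebraic
parts: for odd `k` a congruence modulo `4` between the Eisenstein–Kronecker series of weight `2k - 1`
and the one of weight one without its Euler factors above `2`, and for even `k` a congruence modulo
`16` between its sum over the primitive points of order four, with the character of `ℚ(√-1)`, and the
same series of weight one; together with an induction over the sets of the prime elements of `K`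
dividing `D`. The Selmer groups are treated by the reduction modulo `2` of the cocycles. The density
is by the machine of helpers 973, 713, 897, 226 and 186 (`N973/ND`), extended to the residue classes
by helpers 226 and 186 (`N226/DM`, `N186/DM`).
-/

set_option autoImplicit false

namespace Pool.Agent.Results.MP_ec4e4b_nt.AllWeightsNaturalDensity

open Pool.Agent.Results.MP_787500_nt.AllWeightsMultiquadraticX49 (QBar OK emb ED Gal Sub Chr
  TateModule chi RankZeroShaTwo GalL K Iso SelmerZero)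
open WeierstrassCurve IsDedekindDomain Filter
open scoped Classical

/-! ### The curves, the Hecke characters and the central values -/

/-- The curve `E_d : y² = x³ - 3 d x² - 32 d² x - 64 d³`, the quadratic twist by `d` of
`X_0(49) : y² + x y = x³ - x² - 2 x - 1`. -/
def model (d : ℤ) : WeierstrassCurve ℤ := ⟨0, -3 * d, 0, -32 * d ^ 2, -64 * d ^ 3⟩

/-- The weights `2k` for the twist by `d`: `k > 0` is odd if `d > 0` and even if `d < 0`. -/
def Weight (d k : ℤ) : Prop := 0 < k ∧ ((0 < d ∧ Odd k) ∨ (d < 0 ∧ Even k))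

/-- The value at `n > 0` of the quadratic character of `ℚ(√d)`, for odd squarefree `d` with
`|d| ≡ 1 mod 4`: it is the Jacobi symbol `(n / |d|)`, multiplied by the nontrivial character modulo
`4` if `d < 0`. -/
def quad (d n : ℤ) : ℤ := (if d < 0 then ZMod.χ₄ (n : ZMod 4) else 1) * jacobiSym n d.natAbs

/-- `ψ` is the Hecke character of `K` with `ψ((x)) = (x / √-7) χ_d(N(x)) x` for `x` in `ℤ[ω]`; as
`ω = 4` modulo `√-7`, the first symbol is the Legendre symbol of `a + 4 b` modulo `7`, for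
`x = a + b ω`, and `N(x) = a² + a b + 2 b²`. The values are in `ℂ` by the embedding of `K` which maps
`ω` to `z`. -/
structure IsHecke (d : ℤ) (z : ℂ) (ψ : Ideal OK → ℂ) : Prop where
  mul : ∀ I J : Ideal OK, ψ (I * J) = ψ I * ψ J
  val : ∀ x : OK, ψ (Ideal.span {x}) = (jacobiSym (x.re + 4 * x.im) 7 : ℂ) *
    (quad d (x.re ^ 2 + x.re * x.im + 2 * x.im ^ 2) : ℂ) * emb z x

/-- `ψ` is the Hecke character of `E_d`: for all primes `P` of `K` that do not divide `14 d` the
number of the affine points of the reduction of `E_d` modulo `P` is `N(P) - ψ(P) - ψ̄(P)`. -/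
def IsHeckeOf (d : ℤ) (ψ : Ideal OK → ℂ) : Prop :=
  ∀ P : HeightOneSpectrum OK, ((14 * d : ℤ) : OK) ∉ P.asIdeal →
    ((Nat.card {x : (OK ⧸ P.asIdeal) × (OK ⧸ P.asIdeal) //
      ((model d).map (Int.castRingHom (OK ⧸ P.asIdeal))).toAffine.Equation x.1 x.2} : ℕ) : ℂ) =
      (Nat.card (OK ⧸ P.asIdeal) : ℂ) - (ψ P.asIdeal + (starRingEnd ℂ) (ψ P.asIdeal))

/-- The Euler product `L_j(s)` of the `(1 - ψ(P) ^ j ψ̄(P) ^ (1 - j) N(P) ^ (-s))⁻¹` converges for
`Re s > 3/2`, continues to an entire function and is not zero at `s = 1`. -/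
def CentralNonzero (ψ : Ideal OK → ℂ) (j : ℤ) : Prop :=
  ∃ L : ℂ → ℂ, Differentiable ℂ L ∧
    (∀ s : ℂ, 3 / 2 < s.re → HasProd (fun P : HeightOneSpectrum OK =>
      (1 - ψ P.asIdeal ^ j * (starRingEnd ℂ) (ψ P.asIdeal) ^ (1 - j) *
        (Nat.card (OK ⧸ P.asIdeal) : ℂ) ^ (-s))⁻¹) (L s)) ∧ L 1 ≠ 0

/-- For the two complex embeddings of `K` the curve `E_d` has a Hecke character `ψ`, and `L_k(1)` and
`L_{1-k}(1)` are not zero for all the `k` in `Weight d`. -/
def CentralValues (d : ℤ) : Prop := ∀ z : ℂ, z ^ 2 = z - 2 → ∃ ψ : Ideal OK → ℂ,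
  IsHecke d z ψ ∧ IsHeckeOf d ψ ∧ ∀ k : ℤ, Weight d k →
    CentralNonzero ψ k ∧ CentralNonzero ψ (1 - k)

/-! ### The order formula -/

/-- `D ≥ 1` is squarefree, `D ≡ 1 mod 8`, `7 ∤ D`, `E_D(ℚ)` is finite and `Ш(E_D/ℚ)` has no element of
order two. -/
structure IsGood (D : ℕ) : Prop where
  squarefree : Squarefree D
  mod_eight : D % 8 = 1
  seven : ¬ 7 ∣ D
  rank : RankZeroShaTwo D

/-- All the numbers `|M| ∏_{i ∈ T} d_i` are good up to nonzero squares. -/
def GoodPair (M : ℤ) {n : ℕ} (d : Fin n → ℕ) : Prop := ∀ T : Finset (Fin n), ∃ D k : ℕ,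
  k ≠ 0 ∧ IsGood D ∧ M.natAbs * ∏ i ∈ T, d i = D * k ^ 2

/-- `H⁰(L, ℚ_2(χ)) = 0` for the field `L` fixed by `H`. -/
def NoInvariants {w : QBar} (H : Sub w) (χ : Chr w) : Prop := ∃ σ ∈ H, χ σ ≠ 1

/-- The element `-√-7 d` of `ℤ[ω]`. -/
def tw (d : ℤ) : OK := ⟨d, -2 * d⟩

/-- The order formula over `L = K(√d_1, …, √d_n)` for the motives `M_k` of the curve `E_M` of all
weights `2k`, `k` odd if `M > 0` and even if `M < 0`, all the terms being zero. The curve `E_M` is over
`K` isomorphic to the elliptic curve `ED w (tw M)`, the Galois group acts on its `2`-adic Tate module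
by `κ`, `κ'`, and
* for all these `k` all the classes of the Selmer groups over `L` of `V_k = ℚ_2(κ^k κ'^(1-k))` and of
  `V_{1-k}` are trivial, and `H⁰(L, V_j) = 0` for all `j`;
* for all sets `T` the number `|M| ∏_{i ∈ T} d_i` is up to squares a number `D` such that for `E_D` if
  `M > 0` and for `E_{-D}` if `M < 0` the central values `L_k(1)`, `L_{1-k}(1)` are not zero for all
  these `k`. -/
def OrderFormula (M : ℤ) {n : ℕ} (d : Fin n → ℕ) : Prop :=
  (∀ w : QBar, w ^ 2 = w - 2 →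
    Iso ((model M).map (Int.castRingHom (K w))) (ED w (tw M)) ∧ (ED w (tw M)).IsElliptic ∧
    ∃ κ κ' : Chr w, TateModule (tw M) κ κ' ∧
      ∀ s : Fin n → QBar, (∀ i, s i ^ 2 = (d i : QBar)) →
        (∀ k : ℤ, Weight M k → SelmerZero (1 - w) (GalL w s) (chi κ κ' k) ∧
          SelmerZero w (GalL w s) (chi κ κ' (1 - k))) ∧
        ∀ j : ℤ, NoInvariants (GalL w s) (chi κ κ' j)) ∧
  ∀ T : Finset (Fin n), ∃ D k : ℕ, k ≠ 0 ∧ D % 4 = 1 ∧ M.natAbs * ∏ i ∈ T, d i = D * k ^ 2 ∧
    CentralValues (M.sign * D)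

/-- `D = d d'` in `ℤ[ω]` with `d ≡ 1 mod ω²`, `d ≠ 1`, such that `d` is a square modulo every prime
dividing `d'`, and `-√-7 d'` is a square modulo every prime dividing `d` (`√-7 = 2 ω - 1`). -/
def Factorisation (D : ℕ) : Prop := ∃ d d' : OK, (D : OK) = d * d' ∧
  (⟨0, 1⟩ : OK) ^ 2 ∣ d - 1 ∧ d ≠ 1 ∧
  (∀ p : OK, Prime p → p ∣ d' → ∃ x : OK, p ∣ x ^ 2 - d) ∧
  ∀ p : OK, Prime p → p ∣ d → ∃ x : OK, p ∣ x ^ 2 + (2 * (⟨0, 1⟩ : OK) - 1) * d'

/-- Residue classes: `56 ∣ m`, and `R` is a nonempty set of numbers less than `m`, prime to `m` and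
`1` modulo `8`. -/
structure Classes (m : ℕ) (R : Finset ℕ) : Prop where
  pos : 0 < m
  dvd : 56 ∣ m
  nonempty : R.Nonempty
  mem : ∀ a ∈ R, a < m ∧ Nat.Coprime a m ∧ a % 8 = 1

/-- The number of the squarefree `1 ≤ D ≤ X`, with residue modulo `m` in `R` and the property `Q`. -/
noncomputable def num (m : ℕ) (R : Finset ℕ) (Q : ℕ → Prop) (X : ℕ) : ℕ :=
  ((Finset.Icc 1 X).filter fun D => (Squarefree D ∧ D % m ∈ R) ∧ Q D).card

/-- The property `Q` has the natural density `θ` among the squarefree `D` of the classes. -/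
def HasDensity (m : ℕ) (R : Finset ℕ) (Q : ℕ → Prop) (θ : ℝ) : Prop :=
  Tendsto (fun X : ℕ => (num m R Q X : ℝ) / (num m R (fun _ => True) X : ℝ)) atTop (nhds θ)

/-- The constant `c = 0.4194…`. -/
noncomputable def c : ℝ := ∏' i : ℕ, (1 - (1 / 2 : ℝ) ^ (2 * i + 1))

/-! ### The proof -/

section proof

open Pool.Agent.N843.Z
open Pool.Agent.N843.A (coreZ isoZ selZ fixZ twZ_ne)
open Pool.Agent.N843.E (exists_tateO)
open Pool.Agent.Results.MP_787500_nt.AllWeightsMultiquadraticX49 (elliptic galL_eq)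

lemma fm_of {D : ℕ} (h : IsGood D) : Fm D := ⟨h.squarefree, h.mod_eight, h.seven, h.rank⟩

lemma central_of {D : ℕ} (h : IsGood D) {d : ℤ} (hd : d = D ∨ d = -(D : ℤ)) :
    CentralValues d := by
  intro z hz
  obtain ⟨ψ, h1, h2, h3⟩ := coreZ (fm_of h) hd hz
  exact ⟨ψ, ⟨h1.mul, fun x => by rw [h1.val]; rfl⟩, h2, fun k hk => h3 k hk⟩

lemma gp_of {M : ℤ} {n : ℕ} {d : Fin n → ℕ} (hG : GoodPair M d) : Gp M.natAbs d := fun T => by
  obtain ⟨D, k, hk, h1, h2⟩ := hG T
  exact ⟨D, k, hk, fm_of h1, h2⟩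

lemma formula_of {M : ℤ} {n : ℕ} {d : Fin n → ℕ} (hG : GoodPair M d) : OrderFormula M d := by
  have hG' := gp_of hG
  obtain ⟨hM0, hd0⟩ := gp_ne hG'
  have hM : M ≠ 0 := Int.natAbs_ne_zero.1 hM0
  refine ⟨fun w hw => ?_, fun T => ?_⟩
  · obtain ⟨κ, κ', ht, r, I, kd⟩ := exists_tateO hw (twZ_ne hM)
    refine ⟨isoZ hw M, elliptic (twZ_ne hM) hw, κ, κ', ht, fun s hs =>
      ⟨selZ hw hG' kd hs, fun j => ?_⟩⟩
    obtain ⟨σ, h1, h2⟩ := fixZ hw hG' kd hs j
    refine ⟨σ, ?_, ?_⟩
    · rw [galL_eq]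
      exact fun i _ => h1 i
    · unfold chi
      rw [h2]
      intro h3
      have h4 : ((1 : ℤ_[2]ˣ) : ℤ_[2]) = ((-1 : ℤ_[2]ˣ) : ℤ_[2]) := (congrArg Units.val h3).symm
      rw [Units.val_neg, Units.val_one] at h4
      have h5 : (2 : ℤ_[2]) = 0 := by linear_combination h4
      exact two_ne_zero h5
  · obtain ⟨D, k, hk, hA, he⟩ := hG T
    refine ⟨D, k, hk, by have := hA.mod_eight; omega, he, central_of hA ?_⟩
    rcases lt_or_gt_of_ne hM with h | h
    · right
      rw [Int.sign_eq_neg_one_of_neg h]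
      ring
    · left
      rw [Int.sign_eq_one_of_pos h]
      ring

lemma formula_one {D : ℕ} (h : IsGood D) {d : ℤ} (hd : d = D ∨ d = -(D : ℤ)) :
    OrderFormula d (fun i : Fin 0 => i.elim0) := by
  refine formula_of fun T => ⟨D, 1, one_ne_zero, h, ?_⟩
  have hT : T = ∅ := by
    ext i
    exact i.elim0
  have hn : d.natAbs = D := by rcases hd with rfl | rfl <;> simp
  rw [hT, Finset.prod_empty, hn]
  ring

lemma cls_of {m : ℕ} {R : Finset ℕ} (h : Classes m R) : Cls m R :=
  ⟨h.pos, h.dvd, h.nonempty, fun a ha => by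
    obtain ⟨h1, h2, h3⟩ := h.mem a ha
    exact ⟨h1, h2, by omega⟩⟩

lemma good_iff {m : ℕ} {R : Finset ℕ} (h : Classes m R) {D : ℕ} (hsq : Squarefree D)
    (hD : D % m ∈ R) : Pool.Agent.N818.TC.Rz (Pool.Agent.N818.TC.A D) (Pool.Agent.N818.TC.B D) ↔
      IsGood D := by
  obtain ⟨h4, h7⟩ := cls_mod (cls_of h) hD
  have h8 : D % 8 = 1 := by
    obtain ⟨h1, h2, h3⟩ := h.mem _ hD
    obtain ⟨q, hq⟩ := h.dvd
    have e : D % m % 8 = D % 8 := Nat.mod_mod_of_dvd D (by rw [hq]; exact ⟨7 * q, by ring⟩)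
    omega
  rw [← rz_long h4]
  exact ⟨fun h => ⟨hsq, h8, h7, h⟩, fun h => h.rank⟩

lemma dens {m : ℕ} {R : Finset ℕ} (h : Classes m R) : HasDensity m R IsGood (c / 2) := by
  refine (rz_R dm_den (cls_of h)).congr fun X => ?_
  have e1 : cnt m R (fun D => Pool.Agent.N818.TC.Rz (Pool.Agent.N818.TC.A D)
      (Pool.Agent.N818.TC.B D)) X = num m R IsGood X :=
    cnt_congr (fun D h1 h2 => good_iff h h1 h2) X
  have e2 : cnt m R (fun _ => True) X = num m R (fun _ => True) X := rfl
  rw [e1, e2]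

end proof

/-- **The Bloch–Kato order formula in all weights for the twists of `X_0(49)` by a set of `D` of
exact natural density `c / 2` in the residue classes `1` modulo `8`, and by the `-D`.** -/
theorem result :
    (∀ D : ℕ, IsGood D → OrderFormula D (fun i : Fin 0 => i.elim0) ∧
      OrderFormula (-D) (fun i : Fin 0 => i.elim0)) ∧
    (∀ (n : ℕ) (M : ℤ) (d : Fin n → ℕ), GoodPair M d → OrderFormula M d) ∧
    (∀ D : ℕ, Squarefree D → D % 8 = 1 → ¬ 7 ∣ D → (IsGood D ↔ ¬ Factorisation D)) ∧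
    (∀ (m : ℕ) (R : Finset ℕ), Classes m R → HasDensity m R IsGood (c / 2)) ∧
    0.4194 < c ∧ c < 0.4195 := by
  refine ⟨fun D h => ⟨formula_one h (Or.inl rfl), formula_one h (Or.inr rfl)⟩,
    fun n M d h => formula_of h, fun D h1 h2 h3 => ?_,
    fun m R h => dens h, Pool.Agent.Y948.CQ.t_C2.2.2.2.1, Pool.Agent.Y948.CQ.t_C2.2.2.2.2⟩
  have h4 := Pool.Agent.N843.Z.rank_fac h1 (by omega) h3
  unfold Pool.Agent.N818.TD.Fac at h4
  rw [show (((D : ℤ) : Pool.Agent.N818.TD.OO)) = ((D : ℕ) : OK) by push_cast; rfl] at h4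
  exact ⟨fun h => h4.1 h.rank, fun h => ⟨h1, h2, h3, h4.2 h⟩⟩

end Pool.Agent.Results.MP_ec4e4b_nt.AllWeightsNaturalDensity
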